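import Pool.Agent.MQG.StmtsA

set_option autoImplicit false

/-!
# Squad MQG, row KEY: the key identity
-/

namespace Pool.Agent.MQG.H69

open Pool.Agent.MQG
open scoped InnerProductSpace InnerProduct Topology ComplexConjugate
open Complex Filter

theorem tot {ι κ : Type} (V : ℝ → Op ι) (hV : IsGroup V) :
    Total {ζ : L2 (κ × ι × ι) | ∃ x ∈ (Set.univ : Set (L2 κ)),
      ∃ h ∈ {y : L2 ι | ∃ v ∈ {ξ : L2 ι | ∃ f, Traj V f ∧ ξ = f 0}, y = star v},
      ∃ u ∈ (Set.univ : Set (L2 ι)), ζ = tn x (tn h u)} :=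
  Total.tn3 total_univ (total_star (total_traj hV 0)) total_univ

/-- Row KEY. -/
theorem key (tta : TtaStmt) (ttb : TtbStmt) : KeyStmt := by
  intro ι M κ U Uh hU hh
  have hu := (Unitary.mem_iff.1 (leg_unitary (e12 (α := κ) (β := ι) (γ := ι)) hU.unit))
  have h1 : star (l12 U : Op (κ × ι × ι)) * l12 U = 1 := hu.1
  have h2 : (l12 U : Op (κ × ι × ι)) * star (l12 U) = 1 := hu.2
  have h3 : (l13 U * (l23 M.W * star (l12 U)) : Op (κ × ι × ι)) =
      star (l12 U) * l23 M.W := by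
    have h4 := congrArg (fun T : Op (κ × ι × ι) => star (l12 U) * T * star (l12 U)) hU.eq
    calc (l13 U * (l23 M.W * star (l12 U)) : Op (κ × ι × ι))
        = (star (l12 U) * l12 U) * (l13 U * (l23 M.W * star (l12 U))) := by rw [h1, one_mul]
      _ = star (l12 U) * (l12 U * l13 U * l23 M.W) * star (l12 U) := by
          simp only [mul_assoc]
      _ = star (l12 U) * (l23 M.W * l12 U) * star (l12 U) := h4
      _ = star (l12 U) * l23 M.W * (l12 U * star (l12 U)) := by simp only [mul_assoc]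
      _ = star (l12 U) * l23 M.W := by rw [h2, mul_one]
  refine Total.ext_op (tot (κ := κ) M.V M.V_group) (tot (κ := κ) M.V M.V_group) ?_
  rintro _ ⟨x, -, _, ⟨_, ⟨k, hk, rfl⟩, rfl⟩, u, -, rfl⟩ _ ⟨z, -, _, ⟨_, ⟨k', hk', rfl⟩, rfl⟩, y, -, rfl⟩
  have hL := tta ι M κ U Uh hh x z k k' u y hk hk'
  have hR := ttb ι M κ U Uh hh (star U (tn x u)) z k k' y hk hk'
  have hstar : ∀ h : L2 ι, tl e13 (star U (tn x u)) h =
      star (l13 U : Op (κ × ι × ι)) (tn x (tn h u)) := by
    intro h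
    rw [← l13_star, l13_tn]
  rw [hstar, hstar, ContinuousLinearMap.star_eq_adjoint, ContinuousLinearMap.adjoint_inner_left,
    ContinuousLinearMap.adjoint_inner_left] at hR
  have h5 := congrArg (fun T : Op (κ × ι × ι) => T (tn z (tn (k (I / 2)) y))) h3
  refine hL.trans ?_
  refine Eq.trans ?_ hR.symm
  exact congrArg (fun v => ⟪tn x (tn (k' (-(I / 2))) u), v⟫_ℂ) h5.symm

end Pool.Agent.MQG.H69
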